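import Mathlib
import Pool.Agent.Lib.MP_09f634_al.Cex.FR
import Pool.Agent.Lib.MP_09f634_al.Cex.NonFR

set_option autoImplicit false

namespace Pool.Agent.Results.MP_09f634_al.Disproof

open Pool.Agent.Lib.MP_09f634_al

/-- The equivalence asked for in Q1 fails for every `m ≥ 11`: there is a finite set `W` of words in
which every variable occurs at most `m` (indeed at most `11`) times such that `M(W)` is not
finitely related but, for every variable `a`, `M(W ∪ {a^m})` is finitely related. -/
theorem result (m : ℕ) (hm : 11 ≤ m) :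
    ∃ W : Set Word, W.Finite ∧ (∀ w ∈ W, ∀ x, occ x w ≤ m) ∧
      ¬ FinitelyRelated (M W) ∧ ∀ a : ℕ, FinitelyRelated (M (W ∪ {FreeMonoid.of a ^ m})) :=
  ⟨Cex.W0, Cex.finite_W0, fun w hw x => (Cex.occ_W0 w hw x).trans hm,
    Cex.not_finitelyRelated_W0, fun a =>
      (pow_independent Cex.finite_W0 Cex.occ_W0 (by norm_num) (by omega) a).mp
        (Cex.finitelyRelated_WA a)⟩

end Pool.Agent.Results.MP_09f634_al.Disproof
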