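import Mathlib
import Pool.Agent.Lib.MP_09f634_al.Main

set_option autoImplicit false

namespace Pool.Agent.Results.MP_09f634_al.SeesCounts

open Pool.Agent.Lib.MP_09f634_al

/-- Let `W` be a finite set of words and let `m > 0` be such that every variable occurs at most `m`
times in each word of `W`, and let `a` be a variable.

(1) `M(W)` is finitely related if and only if `M(W ∪ {a^m})` is, provided that `M(W)` sees counts,
in particular if every variable occurs at most `2 e + 2` times in each word of `W`, where `e = 1` or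
`p ^ e` is a subword of a word of `W` for some nonempty word `p`.

(2) For every `W`, if `n` bounds the numbers of occurrences of variables in the words of `W` and
`n ≤ 2 j + 2`, then `M(W ∪ {a^j})` is finitely related if and only if `M(W ∪ {a^m})` is. -/
theorem result (W : Set Word) (hW : W.Finite) (m : ℕ) (_hm : 0 < m)
    (hocc : ∀ w ∈ W, ∀ x, occ x w ≤ m) (a : ℕ) :
    ((SeesCounts W ∨ ∃ e : ℕ, (e = 1 ∨ ∃ p : Word, p ≠ 1 ∧ p ^ e ∈ Subwords W) ∧
        ∀ w ∈ W, ∀ x, occ x w ≤ 2 * e + 2) →
      (FinitelyRelated (M W) ↔ FinitelyRelated (M (W ∪ {FreeMonoid.of a ^ m})))) ∧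
    (∀ n j : ℕ, (∀ w ∈ W, ∀ x, occ x w ≤ n) → n ≤ 2 * j + 2 →
      (FinitelyRelated (M (W ∪ {FreeMonoid.of a ^ j})) ↔
        FinitelyRelated (M (W ∪ {FreeMonoid.of a ^ m})))) := by
  constructor
  · rintro (h | ⟨e, he | ⟨p, hp, hpe⟩, h⟩)
    · exact main hW h hocc a
    · subst he
      exact main hW (seesCounts_of_le_four h) hocc a
    · exact main hW (seesCounts_of_power' hp hpe h) hocc a
  · intro n j hn hj
    have h1 : ∀ w ∈ W, ∀ x, occ x w ≤ min n m := fun w hw x => le_min (hn w hw x) (hocc w hw x)
    exact pow_independent hW h1 (by omega) (by omega) a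

end Pool.Agent.Results.MP_09f634_al.SeesCounts
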